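import Pool.Graph.R_seed8.H95R2.BG.Defs
import Pool.Graph.R_seed8.H95R2.BG.Defs2

/-! The admissible 44-tuple of diameter 210 (adapted from `Y826/ZC/T45.lean`, `H95R2/BG/Tuple.lean`). -/

set_option autoImplicit false

open Finset Filter

namespace Pool.Agent.H529.E

open Pool.Agent.H95R2.BG (Admissible TwoPrimes goodN)

/-- the tuple -/
def tup44 : Fin 44 → ℕ := ![0, 10, 12, 22, 24, 28, 34, 42, 48, 52, 54, 58, 64, 70, 72, 78, 82, 90, 94, 100, 108, 112, 114, 120,
  124, 132, 138, 142, 148, 154, 160, 162, 168, 174, 178, 180, 184, 190, 192, 198, 202, 204, 208, 210]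

theorem tup44_aux_big (p : ℕ) (hp : p.Prime) (h : 45 ≤ p) : ∃ a : ℕ, ∀ i, ¬ p ∣ a + tup44 i := by
  have : NeZero p := ⟨hp.ne_zero⟩
  set S : Finset (ZMod p) := (Finset.univ : Finset (Fin 44)).image (fun i => -(tup44 i : ZMod p)) with hS
  have hcard : S.card < (Finset.univ : Finset (ZMod p)).card := by
    rw [Finset.card_univ, ZMod.card]
    refine lt_of_le_of_lt Finset.card_image_le ?_
    rw [Finset.card_univ, Fintype.card_fin]
    omega
  obtain ⟨z, -, hz⟩ := Finset.exists_mem_notMem_of_card_lt_card hcard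
  refine ⟨z.val, fun i hi => hz ?_⟩
  rw [hS, Finset.mem_image]
  refine ⟨i, Finset.mem_univ _, ?_⟩
  have h1 : ((z.val + tup44 i : ℕ) : ZMod p) = 0 := (ZMod.natCast_eq_zero_iff _ _).mpr hi
  push_cast at h1
  rw [ZMod.natCast_zmod_val] at h1
  exact (eq_neg_of_add_eq_zero_left h1).symm

theorem tup44_aux_small (p : ℕ) (hp : p.Prime) (h : p < 45) : ∃ a : ℕ, ∀ i, ¬ p ∣ a + tup44 i := by
  interval_cases p <;> first
    | exact absurd hp (by decide)
    | exact ⟨1, by decide⟩
    | exact ⟨2, by decide⟩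
    | exact ⟨3, by decide⟩
    | exact ⟨4, by decide⟩
    | exact ⟨5, by decide⟩
    | exact ⟨6, by decide⟩
    | exact ⟨7, by decide⟩
    | exact ⟨8, by decide⟩
    | exact ⟨9, by decide⟩
    | exact ⟨10, by decide⟩
    | exact ⟨11, by decide⟩
    | exact ⟨12, by decide⟩
    | exact ⟨13, by decide⟩
    | exact ⟨14, by decide⟩
    | exact ⟨15, by decide⟩
    | exact ⟨16, by decide⟩
    | exact ⟨17, by decide⟩
    | exact ⟨18, by decide⟩

theorem tup44_admissible : Admissible tup44 := by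
  refine ⟨by decide, fun p hp => ?_⟩
  rcases Nat.lt_or_ge p 45 with h | h
  · exact tup44_aux_small p hp h
  · exact tup44_aux_big p hp h

theorem tup44_le (i : Fin 44) : tup44 i ≤ 210 := by
  revert i
  decide

/-- consequences of `DHL[44,2]` -/
theorem gaps_of_two (h : TwoPrimes tup44) :
    {n : ℕ | n.Prime ∧ ∃ q : ℕ, q.Prime ∧ n < q ∧ q ≤ n + 210}.Infinite := by
  apply Set.infinite_of_forall_exists_gt
  intro N
  obtain ⟨n, ⟨i, j, hij, hi, hj⟩, hn⟩ := Set.Infinite.exists_gt h N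
  have hne : tup44 i ≠ tup44 j := fun he => hij (tup44_admissible.1 he)
  have h1 := tup44_le i
  have h2 := tup44_le j
  rcases lt_or_gt_of_ne hne with hlt | hlt
  · exact ⟨n + tup44 i, ⟨hi, n + tup44 j, hj, by omega, by omega⟩, by omega⟩
  · exact ⟨n + tup44 j, ⟨hj, n + tup44 i, hi, by omega, by omega⟩, by omega⟩

theorem consecutive_of_two (h : TwoPrimes tup44) :
    {n : ℕ | Nat.nth Nat.Prime (n + 1) - Nat.nth Nat.Prime n ≤ 210}.Infinite := by
  have hinf : (Set.ofPred Nat.Prime).Infinite := Nat.infinite_setOfPred_prime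
  have hmono := Nat.nth_strictMono hinf
  apply Set.infinite_of_forall_exists_gt
  intro N
  obtain ⟨p, ⟨hp, q, hq, hpq, hq2⟩, hpN⟩ := Set.Infinite.exists_gt (gaps_of_two h) (Nat.nth Nat.Prime N)
  have e1 : Nat.nth Nat.Prime (Nat.count Nat.Prime p) = p := Nat.nth_count hp
  have e2 : Nat.nth Nat.Prime (Nat.count Nat.Prime q) = q := Nat.nth_count hq
  refine ⟨Nat.count Nat.Prime p, ?_, ?_⟩
  · show Nat.nth Nat.Prime (Nat.count Nat.Prime p + 1) - Nat.nth Nat.Prime (Nat.count Nat.Prime p) ≤ 210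
    have h1 : Nat.count Nat.Prime p < Nat.count Nat.Prime q := by
      rw [← hmono.lt_iff_lt, e1, e2]
      exact hpq
    have h2 : Nat.nth Nat.Prime (Nat.count Nat.Prime p + 1) ≤ q := by
      rw [← e2]
      exact hmono.monotone h1
    rw [e1]
    omega
  · rw [← hmono.lt_iff_lt, e1]
    exact hpN

theorem liminf_of_two (h : TwoPrimes tup44) :
    Filter.liminf (fun n => ((Nat.nth Nat.Prime (n + 1) : ℝ) - (Nat.nth Nat.Prime n : ℝ))) Filter.atTop ≤ 210 := by
  have hinf : (Set.ofPred Nat.Prime).Infinite := Nat.infinite_setOfPred_prime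
  have hmono := Nat.nth_strictMono hinf
  apply Filter.liminf_le_of_frequently_le
  · rw [Nat.frequently_atTop_iff_infinite]
    apply (consecutive_of_two h).mono
    intro n hn
    have hn' : Nat.nth Nat.Prime (n + 1) - Nat.nth Nat.Prime n ≤ 210 := hn
    show ((Nat.nth Nat.Prime (n + 1) : ℝ) - (Nat.nth Nat.Prime n : ℝ)) ≤ 210
    have h1 : Nat.nth Nat.Prime (n + 1) ≤ Nat.nth Nat.Prime n + 210 := by omega
    have h2 : ((Nat.nth Nat.Prime (n + 1) : ℕ) : ℝ) ≤ (Nat.nth Nat.Prime n : ℝ) + 210 := by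
      exact_mod_cast h1
    linarith
  · refine Filter.isBoundedUnder_of ⟨0, fun n => ?_⟩
    have h1 : Nat.nth Nat.Prime n < Nat.nth Nat.Prime (n + 1) := hmono (Nat.lt_succ_self n)
    have h2 : ((Nat.nth Nat.Prime n : ℕ) : ℝ) < (Nat.nth Nat.Prime (n + 1) : ℝ) := by
      exact_mod_cast h1
    show (0 : ℝ) ≤ _
    linarith

/-- some difference occurs infinitely often -/
theorem diff_of_two (h : TwoPrimes tup44) :
    ∃ d : ℕ, 1 ≤ d ∧ d ≤ 210 ∧ {p : ℕ | p.Prime ∧ (p + d).Prime}.Infinite := by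
  by_contra hcon
  push Not at hcon
  apply gaps_of_two h
  have hfin : (⋃ d ∈ (Finset.Icc 1 210 : Finset ℕ), {p : ℕ | p.Prime ∧ (p + d).Prime}).Finite := by
    apply Set.Finite.biUnion (Finset.finite_toSet _)
    intro d hd
    have hd' := Finset.mem_Icc.mp (Finset.mem_coe.mp hd)
    exact hcon d hd'.1 hd'.2
  apply hfin.subset
  rintro p ⟨hp, q, hq, h1, h2⟩
  simp only [Set.mem_iUnion]
  refine ⟨q - p, Finset.mem_Icc.mpr ⟨by omega, by omega⟩, hp, ?_⟩
  have : p + (q - p) = q := by omega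
  rw [this]
  exact hq

end Pool.Agent.H529.E
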