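import Pool.Agent.H529.F.FDefs
import Pool.Agent.H529.E.T44

/-! Consequences of `DHL[44,2]` (adapted from `Y826/ZC/Con45.lean`). -/

set_option autoImplicit false

open Finset Filter

namespace Pool.Agent.H529.E

open Pool.Agent.H95R2.BG (Admissible TwoPrimes goodN)
open Pool.Agent.H529.F (Dhl44Count)


theorem Y5_asy (ε : ℝ) (hε : 0 < ε) (C D : ℝ) :
    ∃ δ : ℝ, 0 < δ ∧ ∀ᶠ x : ℝ in atTop, C * x ^ (1 - ε) + D ≤ (x / 2) ^ (1 - δ) := by
  obtain ⟨δ, hδ0, hδ1, hδ2⟩ : ∃ δ : ℝ, 0 < δ ∧ δ < 1 ∧ δ < ε := by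
    refine ⟨min (ε / 2) (1 / 2), by positivity, ?_, ?_⟩
    · exact lt_of_le_of_lt (min_le_right _ _) (by norm_num)
    · exact lt_of_le_of_lt (min_le_left _ _) (by linarith)
  refine ⟨δ, hδ0, ?_⟩
  have t1 : Tendsto (fun x : ℝ => x ^ (-(ε - δ))) atTop (nhds 0) := tendsto_rpow_neg_atTop (by linarith)
  have t2 : Tendsto (fun x : ℝ => x ^ (-(1 - δ))) atTop (nhds 0) := tendsto_rpow_neg_atTop (by linarith)
  have t3 : Tendsto (fun x : ℝ => 2 ^ (1 - δ) * (C * x ^ (-(ε - δ)) + D * x ^ (-(1 - δ)))) atTop (nhds 0) := by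
    have := ((t1.const_mul C).add (t2.const_mul D)).const_mul ((2 : ℝ) ^ (1 - δ))
    simpa using this
  filter_upwards [t3.eventually (gt_mem_nhds (show (0 : ℝ) < 1 by norm_num)), eventually_gt_atTop (0 : ℝ)]
    with x hx hx0
  have h2 : (0 : ℝ) < 2 ^ (1 - δ) := Real.rpow_pos_of_pos (by norm_num) _
  have hxp : (0 : ℝ) < x ^ (1 - δ) := Real.rpow_pos_of_pos hx0 _
  rw [Real.div_rpow hx0.le (by norm_num), le_div_iff₀ h2]
  have e1 : x ^ (1 - ε) = x ^ (-(ε - δ)) * x ^ (1 - δ) := by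
    rw [← Real.rpow_add hx0]; congr 1; ring
  have e2 : x ^ (-(1 - δ)) * x ^ (1 - δ) = 1 := by
    rw [← Real.rpow_add hx0]; simp
  calc (C * x ^ (1 - ε) + D) * 2 ^ (1 - δ)
      = (2 ^ (1 - δ) * (C * x ^ (-(ε - δ)) + D * x ^ (-(1 - δ)))) * x ^ (1 - δ) := by
        rw [e1]
        generalize x ^ (-(ε - δ)) = A at *
        generalize x ^ (-(1 - δ)) = B at *
        generalize x ^ (1 - δ) = E at *
        generalize (2 : ℝ) ^ (1 - δ) = T at *
        linear_combination (-T * D) * e2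
    _ ≤ 1 * x ^ (1 - δ) := by
        apply mul_le_mul_of_nonneg_right hx.le hxp.le
    _ = x ^ (1 - δ) := one_mul _

theorem Y5_gap (n a b : ℕ) (hab : a < b) (hb : b ≤ 210) (hpa : (n + a).Prime) (hpb : (n + b).Prime) :
    n ≤ Nat.nth Nat.Prime (Nat.count Nat.Prime n) ∧ Nat.nth Nat.Prime (Nat.count Nat.Prime n) ≤ n + 210 ∧
    Nat.nth Nat.Prime (Nat.count Nat.Prime n + 1) ≤ n + 210 := by
  have h1 : Nat.count Nat.Prime n ≤ Nat.count Nat.Prime (n + a) := Nat.count_monotone _ (by omega)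
  have h2 : Nat.count Nat.Prime (n + a + 1) = Nat.count Nat.Prime (n + a) + 1 := by
    rw [Nat.count_succ, if_pos hpa]
  have h3 : Nat.count Nat.Prime (n + a + 1) ≤ Nat.count Nat.Prime (n + b) := Nat.count_monotone _ (by omega)
  have h4 : Nat.count Nat.Prime (n + b + 1) = Nat.count Nat.Prime (n + b) + 1 := by
    rw [Nat.count_succ, if_pos hpb]
  have h5 : Nat.nth Nat.Prime (Nat.count Nat.Prime n + 1) < n + b + 1 := Nat.nth_lt_of_lt_count (by omega)
  have h6 : Nat.nth Nat.Prime (Nat.count Nat.Prime n) < n + b + 1 := Nat.nth_lt_of_lt_count (by omega)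
  exact ⟨Nat.le_nth_count Nat.infinite_setOfPred_prime n, by omega, by omega⟩

open Classical in
/-- X5: many gaps at most 210 -/
theorem gaps210_of_count (H : Dhl44Count) (ε : ℝ) (hε : 0 < ε) :
    ∀ᶠ x : ℝ in atTop, x ^ (1 - ε) ≤ (((Icc 1 ⌊x⌋₊).filter (fun n : ℕ =>
      Nat.nth Nat.Prime n ≤ x ∧ Nat.nth Nat.Prime (n + 1) - Nat.nth Nat.Prime n ≤ 210)).card : ℝ) := by
  obtain ⟨δ, hδ, hasy⟩ := Y5_asy ε hε 211 2
  have h1 := H tup44 tup44_admissible 1 0 squarefree_one (fun i => Nat.coprime_one_right _) δ hδ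
  have h2 : Tendsto (fun x : ℝ => x / 2) atTop atTop := tendsto_id.atTop_div_const (by norm_num)
  filter_upwards [hasy, h2.eventually h1, eventually_ge_atTop (420 : ℝ)] with x hx1 hx2 hx3
  set T := (Icc 1 ⌊x⌋₊).filter (fun n : ℕ =>
      (Nat.nth Nat.Prime n : ℝ) ≤ x ∧ Nat.nth Nat.Prime (n + 1) - Nat.nth Nat.Prime n ≤ 210) with hT
  set S := (goodN tup44 1 0 (x / 2)) \ {1, 2} with hS
  have hgood : ∀ n ∈ S, 3 ≤ n ∧ (n : ℝ) ≤ x / 2 ∧ (n ≤ Nat.nth Nat.Prime (Nat.count Nat.Prime n) ∧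
      Nat.nth Nat.Prime (Nat.count Nat.Prime n) ≤ n + 210 ∧
      Nat.nth Nat.Prime (Nat.count Nat.Prime n + 1) ≤ n + 210) := by
    intro n hn
    rw [hS, Finset.mem_sdiff] at hn
    obtain ⟨hn1, hn2⟩ := hn
    rw [goodN, Finset.mem_filter, Finset.mem_Icc] at hn1
    obtain ⟨⟨h1n, hnx⟩, -, i, j, hij, hi, hj⟩ := hn1
    have hn3 : n ≠ 1 ∧ n ≠ 2 := by
      constructor
      · rintro rfl; exact hn2 (by simp)
      · rintro rfl; exact hn2 (by simp)
    refine ⟨by omega, ?_, ?_⟩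
    · exact (Nat.le_floor_iff (by linarith)).mp hnx
    · rcases lt_or_gt_of_ne (fun h => hij (tup44_admissible.1 h) : tup44 i ≠ tup44 j) with h | h
      · exact Y5_gap n _ _ h (tup44_le j) hi hj
      · exact Y5_gap n _ _ h (tup44_le i) hj hi
  have himg : S.image (fun n => Nat.count Nat.Prime n) ⊆ T := by
    intro m hm
    obtain ⟨n, hn, rfl⟩ := Finset.mem_image.mp hm
    obtain ⟨g1, g2, g3, g4, g5⟩ := hgood n hn
    rw [hT, Finset.mem_filter, Finset.mem_Icc]
    refine ⟨⟨?_, ?_⟩, ?_, ?_⟩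
    · have : Nat.count Nat.Prime 3 ≤ Nat.count Nat.Prime n := Nat.count_monotone _ g1
      have h3 : Nat.count Nat.Prime 3 = 1 := by decide
      omega
    · rw [Nat.le_floor_iff (by linarith)]
      have : Nat.count Nat.Prime n ≤ n := Nat.count_le _
      have : (Nat.count Nat.Prime n : ℝ) ≤ n := by exact_mod_cast this
      linarith
    · have : (Nat.nth Nat.Prime (Nat.count Nat.Prime n) : ℝ) ≤ n + 210 := by exact_mod_cast g4
      linarith
    · omega
  have hfib : ∀ m ∈ S.image (fun n => Nat.count Nat.Prime n),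
      (S.filter (fun n => Nat.count Nat.Prime n = m)).card ≤ 211 := by
    intro m _
    have : S.filter (fun n => Nat.count Nat.Prime n = m) ⊆
        Finset.Icc (Nat.nth Nat.Prime m - 210) (Nat.nth Nat.Prime m) := by
      intro n hn
      rw [Finset.mem_filter] at hn
      obtain ⟨hnS, hnm⟩ := hn
      obtain ⟨g1, g2, g3, g4, g5⟩ := hgood n hnS
      rw [hnm] at g3 g4
      rw [Finset.mem_Icc]
      omega
    refine (Finset.card_le_card this).trans ?_
    rw [Nat.card_Icc]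
    omega
  have hcard : S.card ≤ 211 * (S.image (fun n => Nat.count Nat.Prime n)).card :=
    Finset.card_le_mul_card_image S 211 hfib
  have hcard2 : S.card ≤ 211 * T.card := hcard.trans (Nat.mul_le_mul_left _ (Finset.card_le_card himg))
  have hcard3 : (goodN tup44 1 0 (x / 2)).card ≤ S.card + 2 := by
    have h5 := Finset.le_card_sdiff ({1, 2} : Finset ℕ) (goodN tup44 1 0 (x / 2))
    have h6 : ({1, 2} : Finset ℕ).card ≤ 2 := Finset.card_le_two
    rw [← hS] at h5
    omega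
  have hcard4 : ((goodN tup44 1 0 (x / 2)).card : ℝ) ≤ 211 * (T.card : ℝ) + 2 := by
    have : (goodN tup44 1 0 (x / 2)).card ≤ 211 * T.card + 2 := by omega
    exact_mod_cast this
  linarith



/-- the class making all the positions outside the tuple composite -/
theorem Y4_class (h : Fin 44 → ℕ) : ∃ Q b : ℕ, Squarefree Q ∧ (∀ i, (b + h i).Coprime Q) ∧
    ∀ n, n ≡ b [MOD Q] → Q < n → ∀ t, (∃ j, t ≤ h j) → (∀ i, t ≠ h i) → ¬ (n + t).Prime := by
  classical
  obtain ⟨Hm, hHm⟩ : ∃ Hm, ∀ i, h i ≤ Hm := ⟨Finset.univ.sup h, fun i => Finset.le_sup (Finset.mem_univ i)⟩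
  set B : Finset ℕ := (range (Hm + 1)).filter (fun t => ∀ i, t ≠ h i) with hB
  set p : ℕ → ℕ := fun t => Nat.nth Nat.Prime (Hm + 1 + t) with hp
  have hpp : ∀ t, (p t).Prime := fun t => Nat.prime_nth_prime _
  have hpl : ∀ t, Hm + t < p t := fun t => by
    have := Nat.add_two_le_nth_prime (Hm + 1 + t)
    show Hm + t < Nat.nth Nat.Prime (Hm + 1 + t)
    omega
  have hpinj : ∀ s t, p s = p t → s = t := by
    intro s t hst
    have := Nat.nth_injective Nat.infinite_setOfPred_prime hst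
    omega
  have hcop : ∀ s t, s ≠ t → Nat.Coprime (p s) (p t) := fun s t hst =>
    (Nat.coprime_primes (hpp s) (hpp t)).mpr (fun e => hst (hpinj s t e))
  have hcop' : Set.Pairwise (B : Set ℕ) (Function.onFun Nat.Coprime p) := fun s _ t _ hst => hcop s t hst
  obtain ⟨b, hb⟩ := Nat.chineseRemainderOfFinset (fun t => p t - t) p B (fun i _ => (hpp i).ne_zero) hcop'
  have hbt : ∀ t ∈ B, p t ∣ b + t := by
    intro t ht
    have h1 := hb t ht
    have h2 : b + t ≡ (p t - t) + t [MOD p t] := h1.add_right t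
    rw [Nat.sub_add_cancel (by have := hpl t; omega)] at h2
    have h3 : p t ≡ 0 [MOD p t] := by simp [Nat.ModEq]
    exact (Nat.modEq_zero_iff_dvd).mp (h2.trans h3)
  refine ⟨∏ t ∈ B, p t, b, ?_, ?_, ?_⟩
  · apply Finset.squarefree_prod_of_pairwise_isCoprime
    · intro s hs t ht hst
      exact Nat.coprime_iff_isRelPrime.mp (hcop s t hst)
    · intro t _
      exact (hpp t).squarefree
  · intro i
    apply Nat.Coprime.prod_right
    intro t ht
    rw [Nat.coprime_comm, (hpp t).coprime_iff_not_dvd]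
    intro hd
    have h1 := hbt t ht
    have h2 : (p t : ℤ) ∣ (h i : ℤ) - t := by
      have h3 : (p t : ℤ) ∣ ((b + h i : ℕ) : ℤ) := by exact_mod_cast hd
      have h4 : (p t : ℤ) ∣ ((b + t : ℕ) : ℤ) := by exact_mod_cast h1
      have := dvd_sub h3 h4
      push_cast at this
      have e : (b : ℤ) + h i - (b + t) = h i - t := by ring
      rwa [e] at this
    rw [hB, Finset.mem_filter, Finset.mem_range] at ht
    have h5 : (h i : ℤ) - t = 0 := by
      apply Int.eq_zero_of_abs_lt_dvd h2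
      have := hHm i
      have := hpl t
      rw [abs_lt]
      constructor <;> omega
    exact ht.2 i (by omega)
  · intro n hn hQn t ⟨j, hj⟩ ht hprime
    have htB : t ∈ B := by
      rw [hB, Finset.mem_filter, Finset.mem_range]
      exact ⟨by have := hHm j; omega, ht⟩
    have h1 : p t ∣ ∏ t ∈ B, p t := Finset.dvd_prod_of_mem p htB
    have h2 : n ≡ b [MOD p t] := hn.of_dvd h1
    have h3 : p t ∣ n + t := (Nat.modEq_zero_iff_dvd).mp
      ((h2.add_right t).trans ((Nat.modEq_zero_iff_dvd).mpr (hbt t htB)))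
    have h4 : p t ≤ ∏ t ∈ B, p t := Nat.le_of_dvd (Finset.prod_pos fun s _ => (hpp s).pos) h1
    rcases (Nat.dvd_prime hprime).mp h3 with h5 | h5
    · exact (hpp t).one_lt.ne' h5
    · omega

open Classical in
/-- X4: consecutive primes: all primes of the interval spanned by the tuple belong to the tuple -/
theorem consecutive44_of_count (H : Dhl44Count) (a : Fin 44 → ℤ) (hinj : Function.Injective a)
    (hadm : ∀ p : ℕ, p.Prime → ∃ r : ℤ, ∀ i, ¬ (p : ℤ) ∣ r + a i) (ε : ℝ) (hε : 0 < ε) :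
    ∀ᶠ x : ℝ in atTop, x ^ (1 - ε) ≤ (((Icc 1 ⌊x⌋₊).filter (fun n : ℕ =>
      (∃ i j, i ≠ j ∧ ∃ p q : ℕ, p.Prime ∧ q.Prime ∧ (p : ℤ) = n + a i ∧ (q : ℤ) = n + a j) ∧
      ∀ p : ℕ, p.Prime → (∃ i j, (n : ℤ) + a i ≤ p ∧ (p : ℤ) ≤ n + a j) → ∃ i, (p : ℤ) = n + a i)).card : ℝ) := by
  obtain ⟨i0, -, hi0⟩ := Finset.exists_min_image (Finset.univ : Finset (Fin 44)) a ⟨0, Finset.mem_univ _⟩
  set m := a i0 with hm
  have hmle : ∀ i, m ≤ a i := fun i => hi0 i (Finset.mem_univ _)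
  have hcast : ∀ i, (((a i - m).toNat : ℕ) : ℤ) = a i - m := fun i => Int.toNat_of_nonneg (by linarith [hmle i])
  have hA : Admissible (fun i => (a i - m).toNat) := by
    refine ⟨fun i j hij => hinj ?_, fun p hp => ?_⟩
    · have h1 := hcast i
      have h2 := hcast j
      have hij' : (a i - m).toNat = (a j - m).toNat := hij
      rw [hij', h2] at h1
      linarith
    · obtain ⟨r, hr⟩ := hadm p hp
      refine ⟨((r + m) % p).toNat, fun i hdvd => hr i ?_⟩
      have hp0 : (p : ℤ) ≠ 0 := by exact_mod_cast hp.ne_zero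
      have h3 : (((r + m) % p).toNat : ℤ) = (r + m) % p := Int.toNat_of_nonneg (Int.emod_nonneg _ hp0)
      have h4 : (p : ℤ) ∣ (((r + m) % p).toNat : ℤ) + (((a i - m).toNat : ℕ) : ℤ) := by exact_mod_cast hdvd
      rw [h3, hcast i] at h4
      have h5 : r + a i = ((r + m) % p + (a i - m)) + p * ((r + m) / p) := by
        have := Int.emod_add_mul_ediv (r + m) p
        linarith
      rw [h5]
      exact dvd_add h4 (dvd_mul_right _ _)
  obtain ⟨Q, b, hQ, hbQ, hcomp⟩ := Y4_class (fun i => (a i - m).toNat)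
  obtain ⟨δ, hδ, hasy⟩ := Y5_asy ε hε 1 (Q + m.natAbs + 1)
  have h1 := H (fun i => (a i - m).toNat) hA Q b hQ hbQ δ hδ
  have h2 : Tendsto (fun x : ℝ => x / 2) atTop atTop := tendsto_id.atTop_div_const (by norm_num)
  filter_upwards [hasy, h2.eventually h1, eventually_ge_atTop (2 * (m.natAbs : ℝ) + 1)] with x hx1 hx2 hx3
  set T := (Icc 1 ⌊x⌋₊).filter (fun n : ℕ =>
      (∃ i j, i ≠ j ∧ ∃ p q : ℕ, p.Prime ∧ q.Prime ∧ (p : ℤ) = n + a i ∧ (q : ℤ) = n + a j) ∧
      ∀ p : ℕ, p.Prime → (∃ i j, (n : ℤ) + a i ≤ p ∧ (p : ℤ) ≤ n + a j) → ∃ i, (p : ℤ) = n + a i) with hT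
  set G := goodN (fun i => (a i - m).toNat) Q b (x / 2) with hG
  set S := G \ range (Q + m.natAbs + 1) with hS
  have hx0 : (0 : ℝ) ≤ x := by
    have : (0 : ℝ) ≤ (m.natAbs : ℝ) := Nat.cast_nonneg _
    linarith
  have habs1 : m ≤ (m.natAbs : ℤ) := Int.le_natAbs
  have habs2 : - m ≤ (m.natAbs : ℤ) := by
    have := Int.le_natAbs (a := -m)
    rwa [Int.natAbs_neg] at this
  have hmaps : ∀ n ∈ S, ((n : ℤ) - m).toNat ∈ T := by
    intro n hn
    rw [hS, Finset.mem_sdiff, hG, goodN, Finset.mem_filter, Finset.mem_Icc, Finset.mem_range] at hn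
    obtain ⟨⟨⟨hn1, hnx⟩, hnb, i, j, hij, hi, hj⟩, hn2⟩ := hn
    have hnx' : (n : ℝ) ≤ x / 2 := (Nat.le_floor_iff (by linarith)).mp hnx
    have hn3 : (((n : ℤ) - m).toNat : ℤ) = n - m := Int.toNat_of_nonneg (by omega)
    rw [hT, Finset.mem_filter, Finset.mem_Icc]
    refine ⟨⟨by omega, ?_⟩, ⟨i, j, hij, _, _, hi, hj, ?_, ?_⟩, ?_⟩
    · rw [Nat.le_floor_iff hx0]
      have h5 : ((((n : ℤ) - m).toNat : ℕ) : ℤ) ≤ ((n + m.natAbs : ℕ) : ℤ) := by
        rw [hn3, Nat.cast_add]; omega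
      have h6 : (((n : ℤ) - m).toNat : ℕ) ≤ n + m.natAbs := by exact_mod_cast h5
      have h7 : ((((n : ℤ) - m).toNat : ℕ) : ℝ) ≤ ((n + m.natAbs : ℕ) : ℝ) := by exact_mod_cast h6
      push_cast at h7 ⊢
      linarith
    · push_cast
      rw [hn3, hcast i]; ring
    · push_cast
      rw [hn3, hcast j]; ring
    · rintro p hp ⟨k, l, hk, hl⟩
      rw [hn3] at hk hl
      have hck := hcast k
      have hcl := hcast l
      have hkm := hmle k
      by_contra hcon
      push Not at hcon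
      obtain ⟨t, rfl⟩ : ∃ t, p = n + t := ⟨p - n, by omega⟩
      refine hcomp n hnb (by omega) t ⟨l, ?_⟩ ?_ hp
      · have : (t : ℤ) ≤ (((a l - m).toNat : ℕ) : ℤ) := by
          rw [hcl]; push_cast at hl; linarith
        exact_mod_cast this
      · intro i' hti
        apply hcon i'
        rw [hn3, hti]
        push_cast
        rw [hcast i']; ring
  have hinjS : Set.InjOn (fun n : ℕ => ((n : ℤ) - m).toNat) (S : Set ℕ) := by
    intro n hn n' hn' hnn
    rw [Finset.mem_coe, hS, Finset.mem_sdiff, Finset.mem_range] at hn hn'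
    have e1 : (((n : ℤ) - m).toNat : ℤ) = n - m := Int.toNat_of_nonneg (by omega)
    have e2 : (((n' : ℤ) - m).toNat : ℤ) = n' - m := Int.toNat_of_nonneg (by omega)
    have e3 : ((n : ℤ) - m).toNat = ((n' : ℤ) - m).toNat := hnn
    rw [e3, e2] at e1
    omega
  have hcard : S.card ≤ T.card := Finset.card_le_card_of_injOn _ hmaps hinjS
  have hcard3 : G.card ≤ S.card + (Q + m.natAbs + 1) := by
    have h5 := Finset.le_card_sdiff (range (Q + m.natAbs + 1)) G
    rw [Finset.card_range, ← hS] at h5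
    omega
  have hcard4 : (G.card : ℝ) ≤ (T.card : ℝ) + (Q + m.natAbs + 1) := by
    have : G.card ≤ T.card + (Q + m.natAbs + 1) := by omega
    exact_mod_cast this
  linarith


/-- two primes infinitely often in every admissible 44-tuple -/
theorem two44_of_count (H : Dhl44Count) (h : Fin 44 → ℕ) (hadm : Admissible h) : TwoPrimes h := by
  apply Set.infinite_of_forall_exists_gt
  intro N
  have h1 := H h hadm 1 0 squarefree_one (fun i => Nat.coprime_one_right _) (1 / 2) (by norm_num)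
  have h2 : Tendsto (fun X : ℝ => X ^ (1 - 1 / 2 : ℝ)) atTop atTop := tendsto_rpow_atTop (by norm_num)
  obtain ⟨X, hX1, hX2⟩ := (h1.and (h2.eventually_ge_atTop ((N : ℝ) + 1))).exists
  have h3 : ((N : ℝ) + 1) ≤ ((goodN h 1 0 X).card : ℝ) := hX2.trans hX1
  have h4 : N + 1 ≤ (goodN h 1 0 X).card := by exact_mod_cast h3
  by_contra hcon
  push Not at hcon
  have hsub : goodN h 1 0 X ⊆ Icc 1 N := by
    intro n hn
    rw [goodN, Finset.mem_filter, Finset.mem_Icc] at hn
    rw [Finset.mem_Icc]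
    refine ⟨hn.1.1, ?_⟩
    obtain ⟨i, j, hij, hi, hj⟩ := hn.2.2
    exact hcon n ⟨i, j, hij, hi, hj⟩
  have h5 := Finset.card_le_card hsub
  rw [Nat.card_Icc] at h5
  omega

/-- `H₁ ≤ 210` -/
theorem gaps210_of_count_infinite (H : Dhl44Count) :
    {n : ℕ | Nat.nth Nat.Prime (n + 1) - Nat.nth Nat.Prime n ≤ 210}.Infinite :=
  consecutive_of_two (two44_of_count H tup44 tup44_admissible)

/-- `H₁ ≤ 210` -/
theorem liminf210_of_count (H : Dhl44Count) :
    Filter.liminf (fun n => ((Nat.nth Nat.Prime (n + 1) : ℝ) - (Nat.nth Nat.Prime n : ℝ))) Filter.atTop ≤ 210 :=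
  liminf_of_two (two44_of_count H tup44 tup44_admissible)

/-- some difference `≤ 210` occurs infinitely often -/
theorem diff210_of_count (H : Dhl44Count) :
    ∃ d : ℕ, 1 ≤ d ∧ d ≤ 210 ∧ {p : ℕ | p.Prime ∧ (p + d).Prime}.Infinite :=
  diff_of_two (two44_of_count H tup44 tup44_admissible)

end Pool.Agent.H529.E
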